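import Pool.Agent.H.MP_ef40db_lc.A

namespace Pool.Agent.Results.MP_ef40db_lc.Poly

open Pool.Agent.Lib.CX Pool.Agent.H.MP_ef40db_lc

theorem result : ∃ f : Inst → Option (List (ℕ × ℕ)), PT f ∧ ∀ I : Inst, I.Valid →
    (∀ M, f I = some M → I.Good M) ∧ (f I = none → ∀ M, ¬I.Good M) := by
  refine ⟨alg, pt_alg, fun I hV => ⟨fun M h => ?_, fun h M hM => ?_⟩⟩
  · simp only [alg, out] at h
    split at h
    · exact Option.some.inj h ▸ good_iff.1 ‹_›
    · cases h
  · simp [alg, out, good_iff.2 (complete hV hM)] at h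

end Pool.Agent.Results.MP_ef40db_lc.Poly
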